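import Pool.Agent.Helper81.PC.St

set_option autoImplicit false

namespace Pool.Agent.Helper54.PC

open Helper11.CT Helper55.PC Helper81.PC

theorem rep_add (hA : StA) {α β : ℤ} {e f : List ℤ} {v w : ℕ} (h1 : Rep α e v) (h2 : Rep β f w)
    (h3 : 0 ≤ α) (h4 : 0 ≤ β) : Rep (α + β) (axpy 1 e f) (Nat.add v w) := by
  obtain ⟨ha, hb, hc⟩ := hA 1 e f
  refine ⟨hb.trans (max_le h1.len h2.len), ?_, ?_⟩
  · have := hc α β h3 h4 h1.bd h2.bd
    simpa using this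
  · rw [ha]
    have h5 : ((Nat.add v w : ℕ) : ℤ) = (v : ℤ) + w := by
      show ((v + w : ℕ) : ℤ) = _
      push_cast
      ring
    rw [h5, one_mul]
    exact h1.cg.add h2.cg

theorem rep_sub (hA : StA) {α β : ℤ} {e f : List ℤ} {v w : ℕ} (h1 : Rep α e v) (h2 : Rep β f w)
    (h3 : 0 ≤ α) (h4 : 0 ≤ β) : Rep (α + β) (axpy (-1) e f) (Nat.add (ng v) w) := by
  obtain ⟨ha, hb, hc⟩ := hA (-1) e f
  refine ⟨hb.trans (max_le h1.len h2.len), ?_, ?_⟩
  · have := hc α β h3 h4 h1.bd h2.bd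
    simpa using this
  · rw [ha]
    have h5 : ((Nat.add (ng v) w : ℕ) : ℤ) = ((ng v : ℕ) : ℤ) + w := by
      show ((ng v + w : ℕ) : ℤ) = _
      push_cast
      ring
    rw [h5]
    have h6 := (ng_cg v).trans h1.cg.neg
    have h7 : (-1 : ℤ) * phi BB e = -phi BB e := by ring
    rw [h7]
    exact h6.add h2.cg

theorem rep_z0 (hA : StA) (K : Cls) (hK : Good K) : Rep 4 (z0f K) (z0N (pkK K)) := by
  unfold z0f z0N
  show Rep 4 _ (Int.rec (motive := fun _ => ℕ) (fun _ => 0) (fun _ => ng (pkK K).D) K.ds)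
  rcases K.ds with n | n
  · exact Rep.nil 4
  · show Rep 4 (axpy (-1) K.D []) (ng (pkK K).D)
    have h1 := rep_sub hA hK.D (Rep.nil 0) (by norm_num) (le_refl 0)
    exact h1

theorem rep_S (hA : StA) (K : Cls) (r : SLn) (hK : Good K)
    (hT : r.ty = 0 → Rep 512 r.T (pkN r.T)) (hn : ∀ x ∈ r.n, |x| ≤ 24) :
    Rep 1700 (sS K (toSL r)) (sSN (pkK K) r) := by
  have hz := rep_z0 hA K hK
  have h1 := rep_add hA hK.A hz (by norm_num) (by norm_num)
  have h2 := rep_add hA hK.D hz (by norm_num) (by norm_num)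
  have h3 := rep_add hA hK.A h2 (by norm_num) (by norm_num)
  have hx := hK.x r.n hn
  obtain ⟨st, ty, T, n, W, en1, en2, sc, zn, zl, AW, At, BW, Bt, Z⟩ := r
  match ty, hT with
  | 0, hT =>
    have h4 := rep_add hA (hT rfl) hx (by norm_num) (by norm_num)
    exact h4.mono (by norm_num)
  | 1, _ => exact hz.mono (by norm_num)
  | 2, _ => exact h1.mono (by norm_num)
  | 3, _ => exact h2.mono (by norm_num)
  | n + 4, _ => exact h3.mono (by norm_num)

theorem rep_T (hA : StA) (K : Cls) (r : SLn) (hK : Good K)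
    (hT : r.ty = 0 → Rep 512 r.T (pkN r.T)) (hn : ∀ x ∈ r.n, |x| ≤ 24) :
    Rep 3000 (sT K (toSL r)) (sTN (pkK K) r) := by
  have hS := rep_S hA K r hK hT hn
  have hx := hK.x r.n hn
  have h1 := rep_sub hA hx hS (by norm_num) (by norm_num)
  obtain ⟨st, ty, T, n, W, en1, en2, sc, zn, zl, AW, At, BW, Bt, Z⟩ := r
  match ty, hT, h1 with
  | 0, hT, _ => exact (hT rfl).mono (by norm_num)
  | m + 1, _, h1 => exact h1.mono (by norm_num)

theorem rep_off (r : SLn) : Rep 1 (soff (toSL r)) (sofN r) := by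
  obtain ⟨st, ty, T, n, W, en1, en2, sc, zn, zl, AW, At, BW, Bt, Z⟩ := r
  match ty with
  | 0 => exact Rep.one (le_refl 1)
  | m + 1 => exact Rep.nil 1

theorem hP (hA : StA) (_hK : StK) (hL : StL) (hM : StM) (hN : StN) : StP := by
  intro K Q r hG hQ h
  have h' : an (isI K r.W) (an (okW r.W) (an (okd r.n) (an (match r.ty with
    | 0 => an (isI K r.T) (okW r.T)
    | _ => Nat.ble r.st 1)
  (an (nixN (pkK K) (pkQ Q) r.st r.n r.en1 r.en2 r.zn r.sc r.zl)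
  (an (lmN (pkK K) (pkQ Q) r.st r.n (pkN r.W) (sTN (pkK K) r) (sofN r) r.AW r.At r.BW r.Bt)
  (an (zaN (pkK K) (pkQ Q) (ssn1 r) (ssn2 r) (sp4 K r.st) (sSN (pkK K) r) (fxN (pkK K) r.n)
    (pkN r.W) (sTN (pkK K) r) (sofN r) r.Z)
  (rgN [0, jmp0 r.st r.AW.inn r.At.inn r.BW.inn r.Bt.inn,
    zG K (ssn1 r) (ssn2 r) (sp4 K r.st) (r.Z.map toZn),
    Int.add (zG K (ssn1 r) (ssn2 r) (sp4 K r.st) (r.Z.map toZn))
      (jmp1 r.st r.AW.inn r.At.inn r.BW.inn r.Bt.inn)]))))))) = true := h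
  rw [an_iff, an_iff, an_iff, an_iff, an_iff, an_iff, an_iff] at h'
  obtain ⟨h1, h2, h3, h4, h5, h6, h7, h8⟩ := h'
  obtain ⟨hW1, hW2⟩ := okW_bd h2
  obtain ⟨hn1, hn2⟩ := okd_bd h3
  have hn : ∀ x ∈ r.n, |x| ≤ 24 := fun x hx => (hn2 x hx).trans (by norm_num)
  have hW : Rep 5000 r.W (pkN r.W) := (Rep.pk hW1 hW2 (by norm_num)).mono (by norm_num)
  have hT : r.ty = 0 → Rep 512 r.T (pkN r.T) := by
    intro h0
    rw [h0] at h4
    have h4' : an (isI K r.T) (okW r.T) = true := h4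
    rw [an_iff] at h4'
    obtain ⟨h9, h10⟩ := okW_bd h4'.2
    exact Rep.pk h9 h10 (by norm_num)
  have hS := (rep_S hA K r hG hT hn).mono (show (1700 : ℤ) ≤ 5000 by norm_num)
  have hTT := (rep_T hA K r hG hT hn).mono (show (3000 : ℤ) ≤ 5000 by norm_num)
  have hoff := rep_off r
  have hx := (hG.x r.n hn).mono (show (1152 : ℤ) ≤ 5000 by norm_num)
  have e5 := hM.1 K Q r.st r.n r.en1 r.en2 r.zn r.sc r.zl hG hQ hn1 hn2 h5
  have e6 := hN.1 K Q r.st r.n r.W _ _ (pkN r.W) _ _ r.AW r.At r.BW r.Bt hG hQ hn hW hTT hoff h6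
  have e7 := hL.2 K Q (ssn1 r) (ssn2 r) (sp4 K r.st) _ (fx K r.n) r.W _ _ _ _ _ _ _ r.Z hG hQ
    hS hx hW hTT hoff h7
  have e8 := hN.2 _ (by simp) h8
  have e4 : (match r.ty with
    | 0 => isI K r.T
    | _ => Nat.ble r.st 1) = true := by
    rcases hr : r.ty with _ | m
    · rw [hr] at h4
      have h4' : an (isI K r.T) (okW r.T) = true := h4
      rw [an_iff] at h4'
      exact h4'.1
    · rw [hr] at h4
      exact h4
  show (isI K r.W && (match r.ty with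
    | 0 => isI K r.T
    | _ => Nat.ble r.st 1) &&
    nix K Q r.st r.n (toC r.en1, toC r.en2) (toNZ r.zn) (toC r.sc) (toNZ r.zl) &&
    lmem K Q r.st r.n r.W (sT K (toSL r)) (soff (toSL r)) (toMem r.AW) (toMem r.At)
      (toMem r.BW) (toMem r.Bt) &&
    zall K Q (ss1 (toSL r)) (ss2 (toSL r)) (sp4 K r.st) (sS K (toSL r)) (fx K r.n) r.W
      (sT K (toSL r)) (soff (toSL r)) (r.Z.map toZn) &&
    rng [0, jmp0 r.st r.AW.inn r.At.inn r.BW.inn r.Bt.inn,
      zG K (ss1 (toSL r)) (ss2 (toSL r)) (sp4 K r.st) (r.Z.map toZn),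
      Int.add (zG K (ss1 (toSL r)) (ss2 (toSL r)) (sp4 K r.st) (r.Z.map toZn))
        (jmp1 r.st r.AW.inn r.At.inn r.BW.inn r.Bt.inn)]) = true
  have e9 : ss1 (toSL r) = ssn1 r := rfl
  have e10 : ss2 (toSL r) = ssn2 r := rfl
  rw [e9, e10, h1, e4, e5, e6, e7, e8]
  rfl

end Pool.Agent.Helper54.PC
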